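import Pool.Agent.H25.BEN.Gen
import Pool.Agent.H25.BCE.ALL

/-!
Transport of the example to the definitions of `Pool.Agent.H25.BEN.Defs`.
-/

set_option autoImplicit false

namespace Pool.Agent.H25.BEN

open scoped ContDiff Topology

/-- the map underlying an affine equivalence -/
def toPermHom (n : ℕ) : (P n ≃ᵃ[ℝ] P n) →* Equiv.Perm (P n) where
  toFun g := g.toEquiv
  map_one' := rfl
  map_mul' _ _ := rfl

theorem toPermHom_apply {n : ℕ} (g : P n ≃ᵃ[ℝ] P n) (x : P n) : toPermHom n g x = g x := rfl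

theorem toPermHom_injective (n : ℕ) : Function.Injective (toPermHom n) := by
  intro g h hgh
  apply AffineEquiv.ext
  intro x
  have := congrArg (fun e : Equiv.Perm (P n) => e x) hgh
  exact this

theorem affine_apply {n : ℕ} (g : P n ≃ᵃ[ℝ] P n) (x : P n) : g x = g.linear x + g 0 := by
  have h := g.map_vadd (0 : P n) x
  simpa using h

/-- the closed symplectic manifold in the new sense -/
def conv {n : ℕ} (M : BCE.ClosedSymplectic n) : ClosedSymplectic n where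
  Γ := M.Γ.map (toPermHom n)
  affine := by
    rintro _ ⟨g, hg, rfl⟩
    refine ⟨g.linear, fun c v w => ?_, fun x => affine_apply g x, M.symp g hg⟩
    rw [map_add, map_smul]
  free := by
    rintro _ ⟨g, hg, rfl⟩ x hx
    rw [M.free g hg x hx, map_one]
  proper := by
    intro K hK
    refine ((M.proper K hK).image (toPermHom n)).subset ?_
    rintro _ ⟨⟨g, hg, rfl⟩, x, hx, hx'⟩
    exact ⟨g, ⟨hg, x, hx, hx'⟩, rfl⟩
  cocompact := by
    obtain ⟨K, hK, h⟩ := M.cocompact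
    refine ⟨K, hK, fun x => ?_⟩
    obtain ⟨g, hg, hx⟩ := h x
    exact ⟨toPermHom n g, ⟨g, hg, rfl⟩, hx⟩

/-- the isomorphism of the deck groups -/
noncomputable def cv {n : ℕ} (M : BCE.ClosedSymplectic n) : M.Γ ≃* Deck (conv M) :=
  M.Γ.equivMapOfInjective (toPermHom n) (toPermHom_injective n)

theorem act_cv {n : ℕ} (M : BCE.ClosedSymplectic n) (g : M.Γ) (x : P n) :
    act (cv M g) x = (g : P n ≃ᵃ[ℝ] P n) x := rfl

variable {n : ℕ}

theorem smooth_conv {M : BCE.ClosedSymplectic n} {F : P n → ℝ} (h : BCE.SmoothFn M.Γ F) :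
    SmoothFn (conv M) F := by
  refine ⟨h.1, ?_⟩
  intro g x
  obtain ⟨g, rfl⟩ := (cv M).surjective g
  exact h.2 g g.2 x

theorem pb_conv (F G : P n → ℝ) (x : P n) : pb F G x = Pool.Agent.H73.pb F G x := rfl

theorem ci_conv {M : BCE.ClosedSymplectic n} {H : P n → ℝ}
    (h : BCE.CompletelyIntegrable M.Γ H) : CompletelyIntegrable (conv M) H := by
  obtain ⟨F, h1, h2, h3, U, hU, hUd, h4⟩ := h
  refine ⟨F, fun i => smooth_conv (h1 i), h2, h3, U, hU, hUd, ?_⟩
  intro x hx c hc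
  have h5 := Fintype.linearIndependent_iff.1 (h4 x hx) c ?_
  · exact funext h5
  · apply ContinuousLinearMap.ext
    intro v
    have h6 := hc v
    unfold dd at h6
    simpa using h6

theorem per_conv {M : BCE.ClosedSymplectic n} {H : P n → ℝ} (g : M.Γ) (x : ℝ → P n) :
    PeriodicOrbit H (cv M g) x ↔ BCE.PeriodicOrbit H (g : P n ≃ᵃ[ℝ] P n) x :=
  ⟨fun h => ⟨h.ham, h.per⟩, fun h => ⟨h.ham, h.per⟩⟩

theorem actionDiff_conv (H : P n → ℝ) (x y : ℝ → P n) :
    actionDiff H x y = BCE.actionDiff H x y := rfl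

theorem lin_conv {M : BCE.ClosedSymplectic n} {H : P n → ℝ} (hH : ContDiff ℝ ∞ H) (g : M.Γ)
    (x ξ : ℝ → P n) (h : LinPeriodic H (cv M g) x ξ) :
    BCE.LinPeriodic H (g : P n ≃ᵃ[ℝ] P n) x ξ := by
  have hd : Differentiable ℝ (fderiv ℝ H) :=
    (hH.fderiv_right (m := 1) (by norm_cast)).differentiable (by simp)
  refine ⟨fun t => ?_, fun t => ?_⟩
  · obtain ⟨v, hv, hw⟩ := h.ham t
    refine ⟨v, hv, fun w => ?_⟩
    rw [show BCE.om v w = om v w from rfl, hw w]
    unfold dd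
    have h1 : HasFDerivAt (fun y => fderiv ℝ H y w)
        ((fderiv ℝ (fderiv ℝ H) (x t)).flip w) (x t) :=
      (hd (x t)).hasFDerivAt.clm_apply (hasFDerivAt_const w (x t)) |>.congr_fderiv (by
        ext <;> simp)
    rw [h1.fderiv]
    rfl
  · rw [h.per t, act_cv, act_cv, affine_apply]
    simp

theorem nd_conv {M : BCE.ClosedSymplectic n} {H : P n → ℝ} (hH : ContDiff ℝ ∞ H) (g : M.Γ)
    (x : ℝ → P n) (h : BCE.Nondegenerate H (g : P n ≃ᵃ[ℝ] P n) x) :
    Nondegenerate H (cv M g) x := by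
  intro ξ hξ
  exact h ξ (lin_conv hH g x ξ hξ)

theorem comm_conv {M : BCE.ClosedSymplectic n} {g h : M.Γ}
    (e : cv M h * cv M g = cv M g * cv M h) :
    (h : P n ≃ᵃ[ℝ] P n) * (g : P n ≃ᵃ[ℝ] P n) = (g : P n ≃ᵃ[ℝ] P n) * (h : P n ≃ᵃ[ℝ] P n) := by
  rw [← map_mul, ← map_mul] at e
  have := (cv M).injective e
  exact congrArg Subtype.val this

theorem list_conv {M : BCE.ClosedSymplectic n} {H : P n → ℝ} (hH : ContDiff ℝ ∞ H) (g : M.Γ)
    {N : ℕ} {y : Fin N → ℝ → P n} (h : BCE.OrbitList M.Γ H (g : P n ≃ᵃ[ℝ] P n) N y) :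
    OrbitList H (cv M g) N y := by
  refine ⟨fun i => (per_conv g _).2 (h.orb i), fun i => nd_conv hH g _ (h.nd i), ?_, ?_⟩
  · intro x hx
    obtain ⟨i, k, hk, hkg, τ, ht⟩ := h.all x ((per_conv g _).1 hx)
    refine ⟨i, cv M ⟨k, hk⟩, ?_, τ, ht⟩
    rw [← map_mul, ← map_mul]
    congr 1
    exact Subtype.ext hkg
  · intro i j hij k hk
    obtain ⟨k, rfl⟩ := (cv M).surjective k
    exact h.dist i j hij k k.2 (comm_conv hk)

theorem gap_conv {M : BCE.ClosedSymplectic n} {H : P n → ℝ} (g : M.Γ) {δ : ℝ}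
    (h : BCE.ActionGap H (g : P n ≃ᵃ[ℝ] P n) δ) : ActionGap H (cv M g) δ := by
  intro x y hx hy
  exact h x y ((per_conv g _).1 hx) ((per_conv g _).1 hy)

theorem exp_conv {M : BCE.ClosedSymplectic n} {H : P n → ℝ} (hH : ContDiff ℝ ∞ H)
    (h : BCE.ExpOrbits M H) : ExpOrbits (conv M) H := by
  classical
  obtain ⟨δ, κ, hδ, hκ, m0, hm0⟩ := h
  refine ⟨δ, κ, hδ, hκ, m0, fun m hm => ?_⟩
  obtain ⟨S, hcard, hS⟩ := hm0 m hm
  have hinj : Function.Injective (ConjClasses.map (cv M).toMonoidHom) := by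
    intro a b hab
    obtain ⟨a, rfl⟩ := ConjClasses.exists_rep a
    obtain ⟨b, rfl⟩ := ConjClasses.exists_rep b
    have h1 : IsConj (cv M a) (cv M b) := ConjClasses.mk_eq_mk_iff_isConj.1 hab
    obtain ⟨c, hc⟩ := isConj_iff.1 h1
    obtain ⟨c, rfl⟩ := (cv M).surjective c
    rw [ConjClasses.mk_eq_mk_iff_isConj, isConj_iff]
    refine ⟨c, (cv M).injective ?_⟩
    rw [map_mul, map_mul, map_inv]
    exact hc
  refine ⟨S.image (ConjClasses.map (cv M).toMonoidHom), ?_, ?_⟩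
  · rw [Finset.card_image_of_injective _ hinj]
    exact hcard
  · intro C hC
    obtain ⟨C', hC', rfl⟩ := Finset.mem_image.1 hC
    obtain ⟨g, hg, rfl, hgap, y, hy⟩ := hS C' hC'
    have hHm : ContDiff ℝ ∞ ((m : ℝ) • H) := contDiff_const.mul hH
    refine ⟨cv M g, ?_, rfl, gap_conv g hgap, y, list_conv hHm g hy⟩
    intro h
    apply hg
    apply (cv M).injective
    rw [h, map_one]

theorem final : ∃ (M : ClosedSymplectic 3) (H : P 3 → ℝ), SmoothFn M H ∧
    CompletelyIntegrable M H ∧ ExpOrbits M H ∧ Nonempty (FloerBarcodes M) ∧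
    ∀ B : FloerBarcodes M, 0 < hbar B H := by
  obtain ⟨M, H, hH, hCI, hE⟩ := BCE.all_thm
  have h1 : SmoothFn (conv M) H := smooth_conv hH
  have h2 : ExpOrbits (conv M) H := exp_conv hH.1 hE
  exact ⟨conv M, H, h1, ci_conv hCI, h2, floer_nonempty _, fun B => hbar_pos h1 h2 B⟩

end Pool.Agent.H25.BEN
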