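import Mathlib

/-!
MP_696a38_gt: barcode entropy of completely integrable Hamiltonian systems, definitions.
Closed symplectic manifolds `ℝ^{2n}/Γ`, complete integrability, 1-periodic orbits, action
differences, Floer barcodes, barcode entropy.
-/

set_option autoImplicit false

namespace Pool.Agent.H25.BEN

open scoped ContDiff Topology

/-- The space `ℝ^{2n}` of pairs (position, momentum). -/
abbrev P (n : ℕ) : Type := (Fin n → ℝ) × (Fin n → ℝ)

variable {n : ℕ}

/-- The symplectic form `∑ dq_i ∧ dp_i` of `ℝ^{2n}`. -/
def om (v w : P n) : ℝ := ∑ i, (v.1 i * w.2 i - v.2 i * w.1 i)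

/-- `F` is a smooth function. -/
def Smooth (F : P n → ℝ) : Prop := ContDiff ℝ ∞ F

/-- The value of the differential `dF(x)` at the vector `v`. -/
noncomputable def dd (F : P n → ℝ) (x v : P n) : ℝ := fderiv ℝ F x v

/-- `v` is the velocity of the curve `c` at the time `t`. -/
def HasVel (c : ℝ → P n) (v : P n) (t : ℝ) : Prop := HasDerivAt c v t

/-- The velocity of the curve `c` at the time `t`. -/
noncomputable def vel (c : ℝ → P n) (t : ℝ) : P n := deriv c t

/-- The basis vector in the direction of the position `q_i`. -/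
def eq (i : Fin n) : P n := (Pi.single i 1, 0)

/-- The basis vector in the direction of the momentum `p_i`. -/
def ep (i : Fin n) : P n := (0, Pi.single i 1)

/-- The Poisson bracket `∑ (∂F/∂q_i ∂G/∂p_i - ∂F/∂p_i ∂G/∂q_i)`. -/
noncomputable def pb (F G : P n → ℝ) (x : P n) : ℝ :=
  ∑ i, (dd F x (eq i) * dd G x (ep i) - dd F x (ep i) * dd G x (eq i))

/-- `g` is an affine symplectic map of `ℝ^{2n}`: `g x = L x + g 0` with `L` linear, preserving
the symplectic form. -/
def AffineSymplectic (g : P n → P n) : Prop :=
  ∃ L : P n → P n, (∀ (c : ℝ) (v w : P n), L (c • v + w) = c • L v + L w) ∧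
    (∀ x, g x = L x + g 0) ∧ ∀ v w, om (L v) (L w) = om v w

/-- A closed symplectic manifold `ℝ^{2n}/Γ`: `Γ` is a group of affine symplectic maps acting
freely, properly and cocompactly. Its fundamental group is `Γ`. -/
structure ClosedSymplectic (n : ℕ) where
  Γ : Subgroup (Equiv.Perm (P n))
  affine : ∀ g ∈ Γ, AffineSymplectic g
  free : ∀ g ∈ Γ, ∀ x : P n, g x = x → g = 1
  proper : ∀ K : Set (P n), IsCompact K → {g | g ∈ Γ ∧ ∃ x ∈ K, g x ∈ K}.Finite
  cocompact : ∃ K : Set (P n), IsCompact K ∧ ∀ x, ∃ g ∈ Γ, g x ∈ K

/-- Deck transformations of `M = ℝ^{2n}/Γ`. -/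
abbrev Deck (M : ClosedSymplectic n) : Type := M.Γ

/-- The map of a deck transformation. -/
def act {M : ClosedSymplectic n} (g : Deck M) (x : P n) : P n := g.1 x

/-- Free homotopy classes of loops in `M`: conjugacy classes of the fundamental group. -/
abbrev FreeClass (M : ClosedSymplectic n) : Type := ConjClasses (Deck M)

/-- The free homotopy class of the loops which close up by `g` in the universal covering. -/
def cls {M : ClosedSymplectic n} (g : Deck M) : FreeClass M := ConjClasses.mk g

/-- Smooth functions on `M = ℝ^{2n}/Γ`. -/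
def SmoothFn (M : ClosedSymplectic n) (F : P n → ℝ) : Prop :=
  Smooth F ∧ ∀ (g : Deck M) (x : P n), F (act g x) = F x

/-- Complete integrability of the Hamiltonian flow of `H` on `M`: there are `n` smooth functions
`F_i` in involution, preserved by the flow, with differentials independent on an open dense set. -/
def CompletelyIntegrable (M : ClosedSymplectic n) (H : P n → ℝ) : Prop :=
  ∃ F : Fin n → P n → ℝ, (∀ i, SmoothFn M (F i)) ∧ (∀ i j x, pb (F i) (F j) x = 0) ∧
    (∀ i x, pb H (F i) x = 0) ∧
    ∃ U : Set (P n), IsOpen U ∧ Dense U ∧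
      ∀ x ∈ U, ∀ c : Fin n → ℝ, (∀ v, ∑ i, c i * dd (F i) x v = 0) → c = 0

/-- `x` is the lift of a 1-periodic orbit of `H` which closes up by `g`. -/
structure PeriodicOrbit {M : ClosedSymplectic n} (H : P n → ℝ) (g : Deck M) (x : ℝ → P n) :
    Prop where
  ham : ∀ t, ∃ v, HasVel x v t ∧ ∀ w, om v w = dd H (x t) w
  per : ∀ t, x (t + 1) = act g (x t)

/-- The difference `A(x) - A(y)` of the values of the action functional of `H` at two paths `x`, `y`
with `x(1) = g x(0)`, `y(1) = g y(0)` (the second term is the area of the strip `(1-s)x + sy`). -/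
noncomputable def actionDiff (H : P n → ℝ) (x y : ℝ → P n) : ℝ :=
  (∫ t in (0 : ℝ)..1, (H (x t) - H (y t))) +
    (1 / 2) * ∫ t in (0 : ℝ)..1, om (x t - y t) (vel x t + vel y t)

/-- `ξ` solves the linearised equation along `x` and closes up by the linear part of `g`. -/
structure LinPeriodic {M : ClosedSymplectic n} (H : P n → ℝ) (g : Deck M) (x ξ : ℝ → P n) :
    Prop where
  ham : ∀ t, ∃ v, HasVel ξ v t ∧ ∀ w, om v w = dd (fun y => dd H y w) (x t) (ξ t)
  per : ∀ t, ξ (t + 1) = act g (ξ t) - act g 0

/-- Transversal nondegeneracy of a 1-periodic orbit of an autonomous Hamiltonian: the periodic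
solutions of the linearised equation are the multiples of the velocity. -/
def Nondegenerate {M : ClosedSymplectic n} (H : P n → ℝ) (g : Deck M) (x : ℝ → P n) : Prop :=
  ∀ ξ, LinPeriodic H g x ξ → ∃ c : ℝ, ∀ t, ξ t = c • vel x t

/-- Up to time shift and deck transformations `y_1, …, y_N` are all the 1-periodic orbits of `H`
in the free homotopy class of `g`; they are transversally nondegenerate and their action values
are different (modulo the periods of the action functional). -/
structure OrbitList {M : ClosedSymplectic n} (H : P n → ℝ) (g : Deck M) (N : ℕ)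
    (y : Fin N → ℝ → P n) : Prop where
  orb : ∀ i, PeriodicOrbit H g (y i)
  nd : ∀ i, Nondegenerate H g (y i)
  all : ∀ x, PeriodicOrbit H g x →
    ∃ i, ∃ h : Deck M, h * g = g * h ∧ ∃ τ : ℝ, ∀ t, x t = act h (y i (t + τ))
  dist : ∀ i j, i ≠ j → ∀ h : Deck M, h * g = g * h →
    actionDiff H (y i) (fun t => act h (y j t)) ≠ 0

/-- Two different action values in the class of `g` differ by at least `δ`. -/
def ActionGap {M : ClosedSymplectic n} (H : P n → ℝ) (g : Deck M) (δ : ℝ) : Prop :=
  ∀ x y, PeriodicOrbit H g x → PeriodicOrbit H g y →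
    actionDiff H x y = 0 ∨ δ ≤ |actionDiff H x y|

/-- The barcodes of the filtered Floer homology (over the field with two elements) of the time-one
maps of autonomous Hamiltonians on `M`. `len H c j`, `j = 0, 1, …`, are the lengths of the bars in
the free homotopy class `c`, completed by zeros; infinite bars have length `∞`. Only two properties
of noncontractible classes are recorded. -/
structure FloerBarcodes (M : ClosedSymplectic n) where
  len : (P n → ℝ) → FreeClass M → ℕ → ENNReal
  /-- The length of a bar is a difference of action values. -/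
  gap : ∀ H, SmoothFn M H → ∀ g : Deck M, g ≠ 1 → ∀ δ : ℝ, 0 < δ → ActionGap H g δ →
    ∀ j, len H (cls g) j = 0 ∨ ENNReal.ofReal δ ≤ len H (cls g) j
  /-- The local Floer homology of a transversally nondegenerate orbit is `H_*(S¹)`, of rank two,
  and the total Floer homology of a noncontractible class is zero: `N` orbits give `N` bars. -/
  count : ∀ H, SmoothFn M H → ∀ g : Deck M, g ≠ 1 → ∀ (N : ℕ) (y : Fin N → ℝ → P n),
    OrbitList H g N y → (∃ δ : ℝ, 0 < δ ∧ ActionGap H g δ) →
    {j | len H (cls g) j ≠ 0}.encard = N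

/-- Number of bars of length greater than `ε` (all free homotopy classes). -/
noncomputable def barCount {M : ClosedSymplectic n} (B : FloerBarcodes M)
    (H : P n → ℝ) (ε : ℝ) : ℕ∞ :=
  {x : FreeClass M × ℕ | ENNReal.ofReal ε < B.len H x.1 x.2}.encard

/-- `limsup (1/k) log b_ε(φ^k)`; the `k`-th iterate of the time-one map of `H` is the time-one map
of `kH`. -/
noncomputable def hbarEps {M : ClosedSymplectic n} (B : FloerBarcodes M)
    (H : P n → ℝ) (ε : ℝ) : EReal :=
  Filter.limsup (fun k : ℕ => ENNReal.log (barCount B (fun x => k * H x) ε : ENNReal) / (k : EReal))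
    Filter.atTop

/-- The barcode entropy (the limit for `ε → 0` is a supremum). -/
noncomputable def hbar {M : ClosedSymplectic n} (B : FloerBarcodes M) (H : P n → ℝ) : EReal :=
  ⨆ (ε : ℝ) (_ : 0 < ε), hbarEps B H ε

/-- Exponentially many nondegenerate periodic orbits: for all large `m` there are at least
`exp (κ m)` noncontractible free homotopy classes in which `m H` has exactly two 1-periodic orbits
(circles of orbits), transversally nondegenerate and of different action, and all action differences
are zero or at least `δ`, with `δ` independent of `m`. -/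
def ExpOrbits (M : ClosedSymplectic n) (H : P n → ℝ) : Prop :=
  ∃ δ κ : ℝ, 0 < δ ∧ 0 < κ ∧ ∃ m0 : ℕ, ∀ m : ℕ, m0 ≤ m → ∃ S : Finset (FreeClass M),
    Real.exp (κ * m) ≤ S.card ∧ ∀ C ∈ S, ∃ g : Deck M, g ≠ 1 ∧ C = cls g ∧
      ActionGap (fun x => m * H x) g δ ∧ ∃ y : Fin 2 → ℝ → P n, OrbitList (fun x => m * H x) g 2 y

end Pool.Agent.H25.BEN
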