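import Pool.Agent.H25.BEN.Defs

/-!
General theorems: exponentially many nondegenerate periodic orbits give positive barcode entropy;
the structure `FloerBarcodes` is never empty (the number of orbits in a list of all periodic orbits
of a class is determined by the Hamiltonian and the class).
-/

set_option autoImplicit false

namespace Pool.Agent.H25.BEN

open scoped ContDiff Topology

variable {n : ℕ}

theorem om_add_left (u v w : P n) : om (u + v) w = om u w + om v w := by
  unfold om
  rw [← Finset.sum_add_distrib]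
  refine Finset.sum_congr rfl fun i _ => ?_
  simp only [Prod.fst_add, Prod.snd_add, Pi.add_apply]
  ring

theorem om_add_right (u v w : P n) : om u (v + w) = om u v + om u w := by
  unfold om
  rw [← Finset.sum_add_distrib]
  refine Finset.sum_congr rfl fun i _ => ?_
  simp only [Prod.fst_add, Prod.snd_add, Pi.add_apply]
  ring

theorem om_sub_left (u v w : P n) : om (u - v) w = om u w - om v w := by
  unfold om
  rw [← Finset.sum_sub_distrib]
  refine Finset.sum_congr rfl fun i _ => ?_
  simp only [Prod.fst_sub, Prod.snd_sub, Pi.sub_apply]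
  ring

theorem om_antisymm (u v : P n) : om u v = -om v u := by
  unfold om
  rw [← Finset.sum_neg_distrib]
  refine Finset.sum_congr rfl fun i _ => ?_
  ring

theorem om_self (u : P n) : om u u = 0 := by
  have := om_antisymm u u
  linarith

theorem om_continuous {X : Type*} [TopologicalSpace X] {u v : X → P n} (hu : Continuous u)
    (hv : Continuous v) : Continuous fun t => om (u t) (v t) := by
  unfold om
  fun_prop

theorem om_hasDerivAt {u v : ℝ → P n} {u' v' : P n} {t : ℝ} (hu : HasDerivAt u u' t)
    (hv : HasDerivAt v v' t) : HasDerivAt (fun s => om (u s) (v s)) (om u' (v t) + om (u t) v') t := by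
  have h : ∀ i : Fin n, HasDerivAt (fun s => (u s).1 i * (v s).2 i - (u s).2 i * (v s).1 i)
      ((u'.1 i * (v t).2 i - u'.2 i * (v t).1 i) + ((u t).1 i * v'.2 i - (u t).2 i * v'.1 i)) t := by
    intro i
    have h1 := (hasDerivAt_pi.1 hu.fst) i
    have h2 := (hasDerivAt_pi.1 hu.snd) i
    have h3 := (hasDerivAt_pi.1 hv.fst) i
    have h4 := (hasDerivAt_pi.1 hv.snd) i
    have := (h1.mul h4).sub (h2.mul h3)
    refine this.congr_deriv ?_
    ring
  have := HasDerivAt.fun_sum (fun i (_ : i ∈ Finset.univ) => h i)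
  refine this.congr_deriv ?_
  unfold om
  rw [← Finset.sum_add_distrib]

/-- the linear part of a deck transformation -/
theorem exists_lin {M : ClosedSymplectic n} (g : Deck M) : ∃ L : P n →L[ℝ] P n,
    (∀ x, act g x = L x + act g 0) ∧ (∀ v w, om (L v) (L w) = om v w) ∧
    ∀ w, ∃ w', w = L w' := by
  obtain ⟨L, h1, h2, h3⟩ := M.affine g.1 g.2
  have hz : L 0 = 0 := by
    have := h1 1 0 0
    simp only [one_smul, add_zero] at this
    have h : L 0 + L 0 = L 0 + 0 := by rw [← this, add_zero]
    exact add_left_cancel h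
  let L0 : P n →ₗ[ℝ] P n :=
    { toFun := L
      map_add' := fun v w => by
        have := h1 1 v w
        simpa only [one_smul] using this
      map_smul' := fun c v => by
        have := h1 c v 0
        simpa only [add_zero, hz, RingHom.id_apply] using this }
  refine ⟨LinearMap.toContinuousLinearMap L0, h2, h3, ?_⟩
  intro w
  refine ⟨g.1.symm (w + g.1 0), ?_⟩
  have h4 := h2 (g.1.symm (w + g.1 0))
  rw [Equiv.apply_symm_apply] at h4
  exact add_right_cancel h4

theorem affine_hasDerivAt {M : ClosedSymplectic n} {g : Deck M} {L : P n →L[ℝ] P n}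
    (hL : ∀ x, act g x = L x + act g 0) {x : ℝ → P n} {v : P n} {t : ℝ}
    (h : HasDerivAt x v t) : HasDerivAt (fun s => act g (x s)) (L v) t := by
  have h2 : (fun s => act g (x s)) = fun s => L (x s) + act g 0 := by
    funext s
    exact hL (x s)
  rw [h2]
  exact (L.hasFDerivAt.comp_hasDerivAt t h).add_const _

theorem fderiv_affine {F : P n → ℝ} (hF : ContDiff ℝ ∞ F) {M : ClosedSymplectic n} {g : Deck M}
    {L : P n →L[ℝ] P n} (hL : ∀ x, act g x = L x + act g 0) (x v : P n) :
    fderiv ℝ (fun y => F (act g y)) x v = fderiv ℝ F (act g x) (L v) := by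
  have h1 : HasFDerivAt (fun y : P n => act g y) L x := by
    have h2 : (fun y : P n => act g y) = fun y => L y + act g 0 := by
      funext y
      exact hL y
    rw [h2]
    exact L.hasFDerivAt.add_const _
  have h3 : HasFDerivAt F (fderiv ℝ F (act g x)) (act g x) :=
    (hF.differentiable (by simp) _).hasFDerivAt
  have h4 := (h3.comp x h1).fderiv
  have h5 : (fun y => F (act g y)) = F ∘ fun y : P n => act g y := rfl
  rw [h5, h4]
  rfl

theorem act_mul {M : ClosedSymplectic n} (g h : Deck M) (x : P n) :
    act (g * h) x = act g (act h x) := rfl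

theorem act_one {M : ClosedSymplectic n} (x : P n) : act (1 : Deck M) x = x := rfl

/-- transport of a periodic orbit by a deck transformation -/
theorem PeriodicOrbit.conj {M : ClosedSymplectic n} {H : P n → ℝ} (hH : SmoothFn M H)
    {g : Deck M} (k : Deck M) {x : ℝ → P n} (hx : PeriodicOrbit H g x) :
    PeriodicOrbit H (k * g * k⁻¹) (fun t => act k (x t)) := by
  obtain ⟨L, hL1, hL2, hL3⟩ := exists_lin k
  refine ⟨fun t => ?_, fun t => ?_⟩
  · obtain ⟨v, hv, hw⟩ := hx.ham t
    refine ⟨L v, affine_hasDerivAt hL1 hv, fun w => ?_⟩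
    obtain ⟨w', rfl⟩ := hL3 w
    have h2 : (fun y => H (act k y)) = H := funext fun y => hH.2 k y
    have h3 := fderiv_affine hH.1 hL1 (x t) w'
    rw [h2] at h3
    rw [hL2, hw]
    exact h3
  · show act k (x (t + 1)) = act (k * g * k⁻¹) (act k (x t))
    rw [hx.per t]
    have h4 : act (k * g * k⁻¹) (act k (x t)) = act (k * g * k⁻¹ * k) (x t) := rfl
    have h5 : k * g * k⁻¹ * k = k * g := by group
    rw [h4, h5]
    rfl

theorem orbit_continuous {M : ClosedSymplectic n} {H : P n → ℝ} {g : Deck M} {x : ℝ → P n}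
    (hx : PeriodicOrbit H g x) : Continuous x := by
  rw [continuous_iff_continuousAt]
  intro t
  obtain ⟨v, hv, _⟩ := hx.ham t
  have : HasDerivAt x v t := hv
  exact this.continuousAt

/-- the Hamiltonian vector field -/
noncomputable def XHam (H : P n → ℝ) (x : P n) : P n :=
  (fun i => fderiv ℝ H x (ep i), fun i => -fderiv ℝ H x (eq i))

theorem orbit_deriv {M : ClosedSymplectic n} {H : P n → ℝ} {g : Deck M} {x : ℝ → P n}
    (hx : PeriodicOrbit H g x) (t : ℝ) : HasDerivAt x (XHam H (x t)) t := by
  obtain ⟨v, hv, hw⟩ := hx.ham t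
  have : v = XHam H (x t) := by
    refine Prod.ext ?_ ?_
    · funext i
      have := hw (ep i)
      rw [show (XHam H (x t)).1 i = fderiv ℝ H (x t) (ep i) from rfl]
      unfold dd at this
      rw [← this]
      simp [om, ep, Pi.single_apply]
    · funext i
      have := hw (eq i)
      rw [show (XHam H (x t)).2 i = -fderiv ℝ H (x t) (eq i) from rfl]
      unfold dd at this
      rw [← this]
      simp [om, eq, Pi.single_apply]
  rw [← this]
  exact hv

theorem XHam_continuous {H : P n → ℝ} (hH : ContDiff ℝ ∞ H) : Continuous (XHam H) := by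
  have h : Continuous (fderiv ℝ H) := hH.continuous_fderiv (by simp)
  unfold XHam
  refine Continuous.prodMk ?_ ?_
  · exact continuous_pi fun i => h.clm_apply continuous_const
  · exact continuous_pi fun i => (h.clm_apply continuous_const).neg

theorem om_XHam (H : P n → ℝ) (x w : P n) : om (XHam H x) w = fderiv ℝ H x w := by
  have e : w = ∑ i, (w.1 i • (eq i : P n) + w.2 i • (ep i : P n)) := by
    refine Prod.ext ?_ ?_
    · funext k
      simp [Prod.fst_sum, eq, ep, Finset.sum_apply, Pi.single_apply]
    · funext k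
      simp [Prod.snd_sum, eq, ep, Finset.sum_apply, Pi.single_apply]
  have h2 : fderiv ℝ H x w = ∑ i, (w.1 i * fderiv ℝ H x (eq i) + w.2 i * fderiv ℝ H x (ep i)) := by
    conv_lhs => rw [e]
    simp [map_sum]
  rw [h2]
  unfold om XHam
  refine Finset.sum_congr rfl fun i _ => ?_
  simp only
  ring

/-- conservation of energy -/
theorem energy {H : P n → ℝ} (hH : ContDiff ℝ ∞ H) {M : ClosedSymplectic n} {g : Deck M}
    {x : ℝ → P n} (hx : PeriodicOrbit H g x) (s t : ℝ) : H (x s) = H (x t) := by
  have hd : ∀ t, HasDerivAt (fun t => H (x t)) 0 t := by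
    intro t
    have h1 := ((hH.differentiable (by simp) (x t)).hasFDerivAt).comp_hasDerivAt t (orbit_deriv hx t)
    refine h1.congr_deriv ?_
    rw [← om_XHam, om_self]
  exact is_const_of_deriv_eq_zero (fun t => (hd t).differentiableAt) (fun t => (hd t).deriv) s t

theorem shift_action {M : ClosedSymplectic n} {H : P n → ℝ} (hH : SmoothFn M H)
    {g : Deck M} {x : ℝ → P n} (hx : PeriodicOrbit H g x) (τ : ℝ) :
    actionDiff H x (fun t => x (t + τ)) = 0 := by
  obtain ⟨L, hL1, hL2, -⟩ := exists_lin g
  have hH1 : ContDiff ℝ ∞ H := hH.1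
  have hxc := orbit_continuous hx
  have hX := XHam_continuous hH1
  have hder := orbit_deriv hx
  have hder2 : ∀ t, HasDerivAt (fun t => x (t + τ)) (XHam H (x (t + τ))) t := by
    intro t
    exact (hder (t + τ)).comp_add_const t τ
  set w : ℝ → ℝ := fun t => om (x t) (XHam H (x t)) with hw
  have hwc : Continuous w := om_continuous hxc (hX.comp hxc)
  unfold actionDiff
  have h1 : ∀ t, H (x t) - H (x (t + τ)) = 0 := by
    intro t
    rw [energy hH1 hx t (t + τ), sub_self]
  simp only [h1]
  rw [intervalIntegral.integral_zero, zero_add]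
  have h2 : ∀ t, om (x t - x (t + τ)) (vel x t + vel (fun t => x (t + τ)) t) =
      (w t - w (t + τ)) + (om (XHam H (x t)) (x (t + τ)) + om (x t) (XHam H (x (t + τ)))) := by
    intro t
    unfold vel
    rw [(hder t).deriv, (hder2 t).deriv]
    simp only [hw, om_sub_left, om_add_right]
    rw [om_antisymm (XHam H (x t)) (x (t + τ))]
    ring
  simp only [h2]
  have hc1 : Continuous fun t => om (XHam H (x t)) (x (t + τ)) + om (x t) (XHam H (x (t + τ))) :=
    (om_continuous (hX.comp hxc) (hxc.comp (continuous_add_const τ))).add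
      (om_continuous hxc (hX.comp (hxc.comp (continuous_add_const τ))))
  have hw2 : Continuous fun t => w (t + τ) := hwc.comp (continuous_add_const τ)
  have hsub : Continuous fun t => w t - w (t + τ) := hwc.sub hw2
  rw [intervalIntegral.integral_add (hsub.intervalIntegrable _ _)
    (hc1.intervalIntegrable _ _),
    intervalIntegral.integral_sub (hwc.intervalIntegrable _ _) (hw2.intervalIntegrable _ _)]
  have h3 : (∫ t in (0 : ℝ)..1, (om (XHam H (x t)) (x (t + τ)) + om (x t) (XHam H (x (t + τ))))) =
      om (x 1) (x (1 + τ)) - om (x 0) (x (0 + τ)) := by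
    refine intervalIntegral.integral_eq_sub_of_hasDerivAt (f := fun t => om (x t) (x (t + τ))) ?_
      (hc1.intervalIntegrable _ _)
    intro t _
    exact om_hasDerivAt (hder t) (hder2 t)
  rw [h3]
  have h4 : (∫ t in (0 : ℝ)..1, w (t + τ)) = ∫ t in τ..(1 + τ), w t := by
    have := intervalIntegral.integral_comp_add_right (a := 0) (b := 1) w τ
    rw [this, zero_add]
  rw [h4]
  set b : P n := act g 0 with hb
  have hwp : ∀ t, w (t + 1) = w t + om b (L (XHam H (x t))) := by
    intro t
    have h5 : HasDerivAt (fun s => x (s + 1)) (XHam H (x (t + 1))) t :=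
      (hder (t + 1)).comp_add_const t 1
    have h6 : (fun s => x (s + 1)) = fun s => act g (x s) := funext hx.per
    rw [h6] at h5
    have h7 := (affine_hasDerivAt hL1 (hder t)).unique h5
    simp only [hw]
    rw [← h7, hx.per t, hL1 (x t), om_add_left, hL2]
  have h8 : (∫ t in (0 : ℝ)..1, w t) - ∫ t in τ..(1 + τ), w t =
      (∫ t in (0 : ℝ)..τ, w t) - ∫ t in (1 : ℝ)..(1 + τ), w t := by
    have e1 := intervalIntegral.integral_add_adjacent_intervals
      (hwc.intervalIntegrable 0 τ) (hwc.intervalIntegrable (μ := MeasureTheory.volume) τ (1 + τ))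
    have e2 := intervalIntegral.integral_add_adjacent_intervals
      (hwc.intervalIntegrable 0 1) (hwc.intervalIntegrable (μ := MeasureTheory.volume) 1 (1 + τ))
    linarith
  rw [h8]
  have h9 : (∫ t in (1 : ℝ)..(1 + τ), w t) = ∫ t in (0 : ℝ)..τ, w (t + 1) := by
    have := intervalIntegral.integral_comp_add_right (a := 0) (b := τ) w 1
    rw [this, zero_add, add_comm τ 1]
  have hc2 : Continuous fun t => om b (L (XHam H (x t))) :=
    om_continuous continuous_const (L.continuous.comp (hX.comp hxc))
  have h10 : (∫ t in (0 : ℝ)..τ, w (t + 1)) = (∫ t in (0 : ℝ)..τ, w t) +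
      ∫ t in (0 : ℝ)..τ, om b (L (XHam H (x t))) := by
    simp only [hwp]
    rw [intervalIntegral.integral_add (hwc.intervalIntegrable _ _) (hc2.intervalIntegrable _ _)]
  have h11 : (∫ t in (0 : ℝ)..τ, om b (L (XHam H (x t)))) =
      om b (L (x τ)) - om b (L (x 0)) := by
    refine intervalIntegral.integral_eq_sub_of_hasDerivAt (f := fun t => om b (L (x t))) ?_
      (hc2.intervalIntegrable _ _)
    intro t _
    have e1 : HasDerivAt (fun s => L (x s)) (L (XHam H (x t))) t :=
      L.hasFDerivAt.comp_hasDerivAt t (hder t)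
    have := om_hasDerivAt (hasDerivAt_const t b) e1
    refine this.congr_deriv ?_
    have : om 0 (L (x t)) = 0 := by simp [om]
    rw [this, zero_add]
  rw [h9, h10, h11]
  have h12 : x 1 = L (x 0) + b := by
    have := hx.per 0
    rw [zero_add] at this
    rw [this, hL1 (x 0)]
  have h13 : x (1 + τ) = L (x τ) + b := by
    have := hx.per τ
    rw [add_comm τ 1] at this
    rw [this, hL1 (x τ)]
  rw [h12, h13, zero_add]
  simp only [om_add_left, om_add_right, hL2, om_self]
  rw [om_antisymm (L (x 0)) b]
  ring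

/-- the number of orbits is determined by the Hamiltonian and the class -/
theorem count_le {M : ClosedSymplectic n} {H : P n → ℝ} (hH : SmoothFn M H)
    {g : Deck M} (k : Deck M) {N N' : ℕ} {y : Fin N → ℝ → P n}
    {y' : Fin N' → ℝ → P n} (hy : OrbitList H g N y)
    (hy' : OrbitList H (k * g * k⁻¹) N' y') : N ≤ N' := by
  have h1 : ∀ i : Fin N, ∃ i' : Fin N', ∃ h : Deck M, h * (k * g * k⁻¹) = (k * g * k⁻¹) * h ∧
      ∃ τ : ℝ, ∀ t, act k (y i t) = act h (y' i' (t + τ)) := fun i =>
    hy'.all (fun t => act k (y i t)) ((hy.orb i).conj hH k)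
  choose f h hc τ hf using h1
  have hinj : Function.Injective f := by
    intro i j hij
    by_contra hne
    set c : Deck M := k⁻¹ * h i * (h j)⁻¹ * k with hcdef
    -- c commutes with g
    have hcg : c * g = g * c := by
      have e1 : (h j)⁻¹ * (k * g * k⁻¹) = (k * g * k⁻¹) * (h j)⁻¹ := by
        have := hc j
        have h2 : (h j)⁻¹ * (h j * (k * g * k⁻¹)) * (h j)⁻¹ =
            (h j)⁻¹ * ((k * g * k⁻¹) * h j) * (h j)⁻¹ := by rw [this]
        have h3 : (h j)⁻¹ * (h j * (k * g * k⁻¹)) * (h j)⁻¹ = (k * g * k⁻¹) * (h j)⁻¹ := by group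
        have h4 : (h j)⁻¹ * ((k * g * k⁻¹) * h j) * (h j)⁻¹ = (h j)⁻¹ * (k * g * k⁻¹) := by group
        rw [h3, h4] at h2
        exact h2.symm
      calc c * g = k⁻¹ * (h i * ((h j)⁻¹ * (k * g * k⁻¹))) * k := by rw [hcdef]; group
        _ = k⁻¹ * (h i * ((k * g * k⁻¹) * (h j)⁻¹)) * k := by rw [e1]
        _ = k⁻¹ * ((h i * (k * g * k⁻¹)) * (h j)⁻¹) * k := by group
        _ = k⁻¹ * (((k * g * k⁻¹) * h i) * (h j)⁻¹) * k := by rw [hc i]
        _ = g * c := by rw [hcdef]; group
    have hcy : ∀ t, act c (y j t) = y i (t + (τ j - τ i)) := by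
      intro t
      have h2 : act k (y j t) = act (h j) (y' (f j) (t + τ j)) := hf j t
      have h3 : act k (y i (t + (τ j - τ i))) =
        act (h i) (y' (f i) (t + (τ j - τ i) + τ i)) := hf i _
      have e : t + (τ j - τ i) + τ i = t + τ j := by ring
      rw [e, hij] at h3
      have h4 : y' (f j) (t + τ j) = act (h j)⁻¹ (act k (y j t)) := by
        rw [h2, ← act_mul, inv_mul_cancel, act_one]
      have h5 : y i (t + (τ j - τ i)) = act k⁻¹ (act k (y i (t + (τ j - τ i)))) := by
        rw [← act_mul, inv_mul_cancel, act_one]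
      rw [h5, h3, h4, hcdef]
      simp only [act_mul]
    have h6 := hy.dist i j hne c hcg
    apply h6
    have h7 : (fun t => act c (y j t)) = fun t => y i (t + (τ j - τ i)) := funext hcy
    rw [h7]
    exact shift_action hH (hy.orb i) _
  simpa using Fintype.card_le_of_injective f hinj

theorem floer_nonempty (M : ClosedSymplectic n) : Nonempty (FloerBarcodes M) := by
  classical
  let Q : (P n → ℝ) → FreeClass M → ℕ → Prop := fun H c N =>
    SmoothFn M H ∧ ∃ g : Deck M, cls g = c ∧
      ∃ y : Fin N → ℝ → P n, OrbitList H g N y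
  have huniq : ∀ H c N N', Q H c N → Q H c N' → N = N' := by
    rintro H c N N' ⟨hH, g, hg, y, hy⟩ ⟨_, g', hg', y', hy'⟩
    have hconj : IsConj g g' := by
      rw [← ConjClasses.mk_eq_mk_iff_isConj]
      exact hg.trans hg'.symm
    obtain ⟨k, hk⟩ := isConj_iff.1 hconj
    have e2 : g = k⁻¹ * g' * (k⁻¹)⁻¹ := by
      rw [← hk]; group
    apply le_antisymm
    · rw [← hk] at hy'
      exact count_le hH k hy hy'
    · rw [e2] at hy
      exact count_le hH k⁻¹ hy' hy
  let cnt : (P n → ℝ) → FreeClass M → ℕ := fun H c => if h : ∃ N, Q H c N then h.choose else 0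
  refine ⟨⟨fun H c j => if j < cnt H c then ⊤ else 0, ?_, ?_⟩⟩
  · intro H _ g _ δ _ _ j
    by_cases h : j < cnt H (cls g)
    · right; rw [if_pos h]; exact le_top
    · left; rw [if_neg h]
  · intro H hH g _ N y hy _
    have hex : ∃ N, Q H (cls g) N := ⟨N, hH, g, rfl, y, hy⟩
    have hcnt : cnt H (cls g) = N := by
      have e : cnt H (cls g) = hex.choose := by
        simp only [cnt]
        rw [dif_pos hex]
      rw [e]
      exact huniq H _ _ _ hex.choose_spec ⟨hH, g, rfl, y, hy⟩
    have hset : {j : ℕ | (if j < cnt H (cls g) then (⊤ : ENNReal) else 0) ≠ 0} =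
        ((Finset.range N : Finset ℕ) : Set ℕ) := by
      ext j
      rw [hcnt]
      by_cases h : j < N
      · simp [h]
      · simp [h]
    rw [hset, Set.encard_coe_eq_coe_finsetCard, Finset.card_range]

theorem smoothFn_smul {M : ClosedSymplectic n} {H : P n → ℝ} (h : SmoothFn M H) (c : ℝ) :
    SmoothFn M (fun x => c * H x) := by
  refine ⟨?_, ?_⟩
  · have h1 : ContDiff ℝ ∞ H := h.1
    exact contDiff_const.mul h1
  · intro g x
    simp only [h.2 g x]

open Filter in
/-- exponential growth gives positive entropy -/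
theorem ent_pos (b : ℕ → ℕ∞) (κ : ℝ) (hκ : 0 < κ) (m0 : ℕ)
    (hb : ∀ m : ℕ, m0 ≤ m → ENNReal.ofReal (Real.exp (κ * m)) ≤ (b m : ENNReal)) :
    (0 : EReal) < Filter.limsup (fun k : ℕ => ENNReal.log (b k : ENNReal) / (k : EReal))
      Filter.atTop := by
  have key : ∀ᶠ m : ℕ in atTop, ((κ : ℝ) : EReal) ≤ ENNReal.log (b m : ENNReal) / (m : EReal) := by
    filter_upwards [eventually_ge_atTop m0, eventually_ge_atTop 1] with m hm h1m
    have hlog : ((κ * m : ℝ) : EReal) ≤ ENNReal.log (b m : ENNReal) := by
      have := ENNReal.log_monotone (hb m hm)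
      rw [ENNReal.log_ofReal_of_pos (Real.exp_pos _), Real.log_exp] at this
      exact this
    rw [EReal.le_div_iff_mul_le (by exact_mod_cast h1m) (by exact EReal.natCast_ne_top m)]
    refine le_trans (le_of_eq ?_) hlog
    push_cast
    rfl
  refine lt_of_lt_of_le ?_ (le_limsup_of_frequently_le' key.frequently)
  exact_mod_cast hκ

/-- The barcode entropy is positive if there are exponentially many nondegenerate periodic
orbits. -/
theorem hbar_pos {M : ClosedSymplectic n} {H : P n → ℝ} (hH : SmoothFn M H)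
    (h : ExpOrbits M H) (B : FloerBarcodes M) : 0 < hbar B H := by
  classical
  obtain ⟨δ, κ, hδ, hκ, m0, hm0⟩ := h
  have key : 0 < hbarEps B H (δ / 2) := by
    unfold hbarEps
    refine ent_pos (fun k => barCount B (fun x => k * H x) (δ / 2)) κ hκ m0 ?_
    intro m hm
    obtain ⟨S, hcard, hS⟩ := hm0 m hm
    have hex : ∀ C ∈ S, ∃ j : ℕ, ENNReal.ofReal (δ / 2) < B.len (fun x => m * H x) C j := by
      intro C hC
      obtain ⟨g, hne, rfl, hgap, y, hy⟩ := hS C hC
      have hcount := B.count (fun x => m * H x) (smoothFn_smul hH _) g hne 2 y hy ⟨δ, hδ, hgap⟩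
      have hnon : {j | B.len (fun x => m * H x) (cls g) j ≠ 0}.Nonempty := by
        rw [← Set.encard_ne_zero, hcount]
        simp
      obtain ⟨j, hj⟩ := hnon
      refine ⟨j, ?_⟩
      rcases B.gap (fun x => m * H x) (smoothFn_smul hH _) g hne δ hδ hgap j with h3 | h3
      · exact absurd h3 hj
      · refine lt_of_lt_of_le ?_ h3
        exact (ENNReal.ofReal_lt_ofReal_iff hδ).2 (by linarith)
    choose! jj hjj using hex
    have hinj : Set.InjOn (fun C : FreeClass M => ((C, jj C) : FreeClass M × ℕ))
        (S : Set _) := by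
      intro C _ C' _ hCC
      exact (Prod.ext_iff.1 hCC).1
    have hle : ((S.card : ℕ) : ℕ∞) ≤ barCount B (fun x => m * H x) (δ / 2) := by
      unfold barCount
      rw [← Set.encard_coe_eq_coe_finsetCard, ← hinj.encard_image]
      apply Set.encard_le_encard
      rintro x ⟨C, hC, rfl⟩
      exact hjj C hC
    calc ENNReal.ofReal (Real.exp (κ * m)) ≤ ENNReal.ofReal (S.card : ℝ) :=
          ENNReal.ofReal_le_ofReal hcard
      _ = ((S.card : ℕ) : ENNReal) := ENNReal.ofReal_natCast _
      _ = (((S.card : ℕ) : ℕ∞) : ENNReal) := by simp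
      _ ≤ _ := by exact_mod_cast hle
  refine lt_of_lt_of_le key ?_
  unfold hbar
  exact le_iSup₂_of_le (δ / 2) (by linarith) le_rfl

end Pool.Agent.H25.BEN
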